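import Pool.Agent.H374R2.Z.Curves

/-!
Almost no positive integer is the conductor of a semistable elliptic curve over `ℚ` with full
rational 2-torsion (no bound for the height of the curve).
-/

namespace Pool.Agent.Results.MP_d8bd92_nt.ConductorDensity

open Finset

/-- the product of the distinct primes dividing `Δ(W)` (the conductor if `gcd(c₄, Δ) = 1`) -/
def conductor (W : WeierstrassCurve ℤ) : ℕ := ∏ p ∈ W.Δ.natAbs.primeFactors, p

/-- all 2-torsion points are rational: `4x³ + b₂x² + 2b₄x + b₆` splits over `ℚ` -/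
def FullTwoTorsion (W : WeierstrassCurve ℤ) : Prop :=
  ∃ r₁ r₂ r₃ : ℚ, ∀ x : ℚ,
    4 * x ^ 3 + W.b₂ * x ^ 2 + 2 * W.b₄ * x + W.b₆ = 4 * (x - r₁) * (x - r₂) * (x - r₃)

/-- For every `ε > 0` at most `C X / (log X) ^ (1 - ε)` integers `n ≤ X` are conductors of integral
Weierstrass curves with `Δ ≠ 0` and `gcd(c₄, Δ) = 1` (the minimal models of the semistable elliptic
curves over `ℚ`) having full rational 2-torsion. -/
theorem result : ∀ ε : ℝ, 0 < ε → ∃ C : ℝ, ∀ X : ℕ, 2 ≤ X →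
    (({n : ℕ | n ≤ X ∧ ∃ W : WeierstrassCurve ℤ, W.Δ ≠ 0 ∧ IsCoprime W.c₄ W.Δ ∧
      FullTwoTorsion W ∧ conductor W = n}.ncard : ℕ) : ℝ) ≤ C * X / Real.log X ^ (1 - ε) := by
  intro ε hε
  obtain ⟨C, -, h⟩ := Pool.Agent.H374R2.Z.curves_semi hε
  exact ⟨C, h⟩

end Pool.Agent.Results.MP_d8bd92_nt.ConductorDensity
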