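import Pool.Agent.H357R2.Sz.Curve

open Filter Topology Pool.Agent.H357R2.Sz

namespace Pool.Agent.Results.MP_d8bd92_nt.RecordLowerBound

/-- The critical exponent in squared form. -/
private lemma exists_eps {K : ℝ} (hK0 : 0 ≤ K)
    (hK : K < 2 * √2 / 3 * Real.exp (59 / 30)) :
    ∃ ε : ℝ, 0 < ε ∧ ε ≤ 1 / 4 ∧
      K ^ 2 * (1 + 2 * ε) * Real.exp (3 * ε) * 18 * Real.exp (-(44 / 15)) ≤
        (2 - ε) ^ 4 * Real.exp 1 * (1 - ε) := by
  have h0 : K ^ 2 < 8 / 9 * Real.exp (59 / 15) := by
    have h1 : K ^ 2 < (2 * √2 / 3 * Real.exp (59 / 30)) ^ 2 := pow_lt_pow_left₀ hK hK0 (by norm_num)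
    have h2 : (2 * √2 / 3 * Real.exp (59 / 30)) ^ 2 = 8 / 9 * Real.exp (59 / 15) := by
      have h3 : Real.exp (59 / 30) ^ 2 = Real.exp (59 / 15) := by
        rw [← Real.exp_nat_mul]; norm_num
      have h4 : √2 ^ 2 = (2 : ℝ) := Real.sq_sqrt (by norm_num)
      calc (2 * √2 / 3 * Real.exp (59 / 30)) ^ 2
          = 4 / 9 * √2 ^ 2 * Real.exp (59 / 30) ^ 2 := by ring
        _ = 8 / 9 * Real.exp (59 / 15) := by rw [h3, h4]; ring
    rwa [h2] at h1
  set F : ℝ → ℝ := fun ε => (2 - ε) ^ 4 * Real.exp 1 * (1 - ε) -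
    K ^ 2 * (1 + 2 * ε) * Real.exp (3 * ε) * 18 * Real.exp (-(44 / 15)) with hF
  have hFc : Continuous F := by fun_prop
  have hF0 : 0 < F 0 := by
    have h5 : Real.exp (59 / 15) * Real.exp (-(44 / 15)) = Real.exp 1 := by
      rw [← Real.exp_add]; norm_num
    have h6 : K ^ 2 * Real.exp (-(44 / 15)) < 8 / 9 * Real.exp 1 := by
      calc K ^ 2 * Real.exp (-(44 / 15)) < 8 / 9 * Real.exp (59 / 15) * Real.exp (-(44 / 15)) := by
            gcongr
        _ = 8 / 9 * Real.exp 1 := by rw [mul_assoc, h5]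
    simp only [hF, mul_zero, add_zero, sub_zero, Real.exp_zero, mul_one]
    linarith
  have hev : ∀ᶠ ε in 𝓝 (0 : ℝ), 0 < F ε := hFc.continuousAt.eventually_const_lt hF0
  obtain ⟨δ, hδ, hball⟩ := Metric.eventually_nhds_iff.mp hev
  refine ⟨min (δ / 2) (1 / 4), by positivity, min_le_right _ _, ?_⟩
  have h7 := hball (y := min (δ / 2) (1 / 4)) (by
    rw [Real.dist_eq, sub_zero, abs_of_nonneg (by positivity)]
    exact (min_le_left _ _).trans_lt (by linarith))
  simp only [hF] at h7
  linarith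

/-- For every `K < 4√2 e^{59/30} = 40.42...` there are semistable elliptic curves over `ℚ` with
arbitrarily large minimal discriminant `Δ` and `|Δ| > N⁶ exp(K √(log N) / log log N)`. -/
theorem result : ∀ K : ℝ, K < 4 * √2 * Real.exp (59 / 30) → ∀ X : ℝ,
    ∃ A B : ℤ, 32 ∣ A ∧ 4 ∣ B - 1 ∧ IsCoprime A B ∧ A * B * (A + B) ≠ 0 ∧
      (frey A B).Δ = (A * B * (A + B)) ^ 2 / 2 ^ 8 ∧
      IsCoprime (frey A B).c₄ (frey A B).Δ ∧ X < ((frey A B).Δ : ℝ) ∧
      (conductor (frey A B) : ℝ) ^ 6 *
          Real.exp (K * √(Real.log (conductor (frey A B))) /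
            Real.log (Real.log (conductor (frey A B)))) < ((frey A B).Δ : ℝ) := by
  intro K hK X
  set K' : ℝ := max K 0 / 6 with hK'
  have hK'0 : 0 ≤ K' := by positivity
  have hK'lt : K' < 2 * √2 / 3 * Real.exp (59 / 30) := by
    rw [hK', div_lt_iff₀ (by norm_num)]
    have h1 : 2 * √2 / 3 * Real.exp (59 / 30) * 6 = 4 * √2 * Real.exp (59 / 30) := by ring
    rw [h1]
    exact max_lt hK (by positivity)
  obtain ⟨ε, hε, hε1, hεK⟩ := exists_eps hK'0 hK'lt
  obtain ⟨m, lam, X1, hm, hX0, hlam1, hlamm, hlamX, hX1e, hKX, hshort⟩ :=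
    core2 hε hε1 hK'0 hεK (max 1 (max X (3 * K')))
  obtain ⟨k, a, b, u, hk, hkn, ha, hb, hao, hbo, hcop, hab, hap, hbp, hdvd, hlam, hbal⟩ :=
    pair hm hlam1 hlamm hshort
  set n : ℝ := (Nat.primeCounting m : ℝ) with hn
  have hn1 : 1 ≤ n := (le_max_left _ _).trans hX0
  have hnX : X ≤ n := (le_max_left _ _).trans ((le_max_right _ _).trans hX0)
  have hnK : 3 * K' ≤ n := (le_max_right _ _).trans ((le_max_right _ _).trans hX0)
  obtain ⟨A, B, hA, hB, hcopAB, hne, hdisc, hcopc, hpos, hN6, hlogN, hmain⟩ :=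
    curve hm hk hkn hn1 ha hb hao hbo hcop hab hap hbp hdvd hlam hbal
  refine ⟨A, B, hA, hB, hcopAB, hne, hdisc, hcopc, ?_, ?_⟩
  all_goals
    set N : ℕ := conductor (frey A B) with hN
    set Δ : ℝ := ((frey A B).Δ : ℝ) with hΔ
    have hN6' : (6 : ℝ) ≤ N := by exact_mod_cast hN6
    have hΔ0 : 0 < Δ := by rw [hΔ]; exact_mod_cast hpos
    have hlogN0 : 0 ≤ Real.log N := Real.log_nonneg (by linarith)
  · have h1 : 12 * n + 6 ≤ Real.log Δ := by linarith
    have h2 := Real.log_le_sub_one_of_pos hΔ0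
    linarith
  · have hNpos : (0 : ℝ) < N := by linarith
    rw [← Real.log_lt_log_iff (by positivity) hΔ0, Real.log_mul (by positivity) (Real.exp_pos _).ne',
      Real.log_exp, Real.log_pow]
    push_cast
    -- bounds for the logarithms
    have h6 : (1.7 : ℝ) ≤ Real.log N := by
      have h1 : Real.log 6 ≤ Real.log N := Real.log_le_log (by norm_num) hN6'
      have h2 : Real.log 6 = Real.log 2 + Real.log 3 := by
        rw [← Real.log_mul (by norm_num) (by norm_num)]; norm_num
      have h3 : (1 : ℝ) < Real.log 3 := by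
        rw [Real.lt_log_iff_exp_lt (by norm_num)]
        linarith [Real.exp_one_lt_d9]
      have h4 : Real.log 3 = Real.log 2 + Real.log (3 / 2) := by
        rw [← Real.log_mul (by norm_num) (by norm_num)]; norm_num
      have h5 := Real.log_two_gt_d9
      have h7 : (0.33 : ℝ) ≤ Real.log (3 / 2) := by
        have := Real.one_sub_inv_le_log_of_pos (x := 3 / 2) (by norm_num)
        norm_num at this ⊢
        linarith
      linarith
    have hll : (1 / 2 : ℝ) ≤ Real.log (Real.log N) := by
      have h1 := Real.log_le_log (by norm_num) h6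
      have h2 : (1 / 2 : ℝ) ≤ Real.log 1.7 := by
        rw [Real.le_log_iff_exp_le (by norm_num)]
        have h3 : Real.exp (1 / 2) ^ 2 = Real.exp 1 := by rw [← Real.exp_nat_mul]; norm_num
        have h4 := Real.exp_one_lt_d9
        have h5 := Real.exp_pos (1 / 2)
        nlinarith
      linarith
    have hll0 : 0 < Real.log (Real.log N) := by linarith
    have hKK : K ≤ 6 * K' := by rw [hK']; linarith [le_max_left K 0]
    have hstep : K * √(Real.log N) / Real.log (Real.log N) ≤
        6 * (K' * (√(Real.log N) / Real.log (Real.log N))) := by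
      calc K * √(Real.log N) / Real.log (Real.log N)
          = K * (√(Real.log N) / Real.log (Real.log N)) := by ring
        _ ≤ (6 * K') * (√(Real.log N) / Real.log (Real.log N)) := by gcongr
        _ = _ := by ring
    have hbound : K' * (√(Real.log N) / Real.log (Real.log N)) ≤ 2 * n := by
      rcases le_total (Real.exp 2) (Real.log N) with h | h
      · have h1 := Pool.Agent.H390R2.sqrt_div_log h (hlogN.trans hlamX)
        calc K' * (√(Real.log N) / Real.log (Real.log N)) ≤ K' * (√X1 / Real.log X1) := by gcongr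
          _ ≤ (2 - ε) * n := hKX
          _ ≤ 2 * n := by gcongr; linarith
      · -- bounded range
        have h1 : √(Real.log N) ≤ 3 := by
          have h2 : Real.log N ≤ 3 ^ 2 := by
            refine h.trans ?_
            have h3 : Real.exp 2 = Real.exp 1 ^ 2 := by rw [← Real.exp_nat_mul]; norm_num
            rw [h3]
            have := Real.exp_one_lt_d9
            gcongr
            linarith
          exact Real.sqrt_le_iff.mpr ⟨by norm_num, h2⟩
        have h4 : √(Real.log N) / Real.log (Real.log N) ≤ 6 := by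
          rw [div_le_iff₀ hll0]
          linarith
        calc K' * (√(Real.log N) / Real.log (Real.log N)) ≤ K' * 6 := by gcongr
          _ ≤ 2 * n := by linarith
    linarith

end Pool.Agent.Results.MP_d8bd92_nt.RecordLowerBound
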