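import Pool.Agent.H925R.Two.Semi

namespace Pool.Agent.Results.MP_d8bd92_nt.TwoTorsionPoint

open Finset

/-- the product of the distinct primes dividing `Δ(W)` (the conductor if `gcd(c₄, Δ) = 1`) -/
def conductor (W : WeierstrassCurve ℤ) : ℕ := ∏ p ∈ W.Δ.natAbs.primeFactors, p

/-- there is a rational point of order 2: `4x³ + b₂x² + 2b₄x + b₆` has a rational root -/
def HasTwoTorsion (W : WeierstrassCurve ℤ) : Prop :=
  ∃ r : ℚ, 4 * r ^ 3 + W.b₂ * r ^ 2 + 2 * W.b₄ * r + W.b₆ = 0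

/-- the invariants `(c₄, c₆)` of the integral Weierstrass curves with `Δ ≠ 0` and `gcd(c₄, Δ) = 1`
(the minimal models of the semistable elliptic curves over `ℚ`) having a rational point of
order 2, naive height `max (|c₄|³, c₆²) ≤ X⁶` and `c₀ N ^ 6 < |Δ|` -/
def Exceptional (c₀ : ℝ) (X : ℕ) : Set (ℤ × ℤ) :=
  {q | ∃ W : WeierstrassCurve ℤ, W.Δ ≠ 0 ∧ IsCoprime W.c₄ W.Δ ∧ HasTwoTorsion W ∧
    q = (W.c₄, W.c₆) ∧ |W.c₄| ^ 3 ≤ (X : ℤ) ^ 6 ∧ W.c₆ ^ 2 ≤ (X : ℤ) ^ 6 ∧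
    c₀ * (conductor W : ℝ) ^ 6 < |(W.Δ : ℝ)|}

/-- For all `c₀, ε > 0` there is `C` such that for every `X ≥ 1` at most `C X ^ (7/8 + ε)`
isomorphism classes of semistable elliptic curves over `ℚ` with a rational point of order 2 and
naive height at most `X⁶` have `c₀ N ^ 6 < |Δ|`. -/
theorem result (c₀ ε : ℝ) (hc₀ : 0 < c₀) (hε : 0 < ε) :
    ∃ C : ℝ, ∀ X : ℕ, 1 ≤ X →
      (Exceptional c₀ X).Finite ∧
      ((Exceptional c₀ X).ncard : ℝ) ≤ C * (X : ℝ) ^ (7 / 8 + ε) := by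
  obtain ⟨C, -, h⟩ := Pool.Agent.H925R.Two.semi_two_count c₀ ε hc₀ hε
  exact ⟨C, h⟩

end Pool.Agent.Results.MP_d8bd92_nt.TwoTorsionPoint
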